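import Pool.Agent.Helper45.Turan.Final

namespace Pool.Agent.Results.MP_5f5e6a_co.NeverStabilises

open Pool.Agent.Helper45.Turan

/-- There is a `20`-graph `H` whose sequence of partite Turan densities is not eventually
constant: the densities converge to `20! / (20 ^ 20 - 20)` but all of them are larger. This holds
also when only partite graphs with large parts are considered. -/
theorem result : ∃ (W : Type) (_ : Fintype W) (H : Set (Finset W)), IsRGraph 20 H ∧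
    (∀ t₀ ≥ Fintype.card W, ∃ t > t₀, dt 20 t H ≠ dt 20 t₀ H) ∧
    (∀ t₀ ≥ Fintype.card W, ∃ t > t₀, ∀ N N' : ℕ, dtLarge N 20 t H < dtLarge N' 20 t₀ H) ∧
    (∀ t ≥ Fintype.card W, ∃ δ : ℝ, 0 < δ ∧ ∀ N : ℕ,
      (Nat.factorial 20 : ℝ) / ((20 : ℝ) ^ 20 - 20) + δ ≤ dtLarge N 20 t H) ∧
    (∀ ε : ℝ, 0 < ε → ∃ T : ℕ, ∀ t ≥ T, ∀ N : ℕ,
      dtLarge N 20 t H ≤ (Nat.factorial 20 : ℝ) / ((20 : ℝ) ^ 20 - 20) + ε) := by
  refine ⟨Pool.Agent.Helper45.Turan.W, inferInstance, HH, HH_rgraph, ?_, ?_, ?_, ?_⟩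
  · intro t₀ ht₀
    obtain ⟨t, ht, h⟩ := never_constant t₀ ht₀
    refine ⟨t, ht, ?_⟩
    rw [dt_eq, dt_eq]
    exact (h 0 0).ne
  · exact never_constant
  · exact lower_dt
  · exact upper_dt

end Pool.Agent.Results.MP_5f5e6a_co.NeverStabilises
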